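import Pool.Agent.W192.PP.Defs
import Pool.Agent.H382P.LocExp
import Pool.Agent.H382R2.Rect

/-! PP-RES: the residues have one sign after the bad zeros have been killed. -/

set_option autoImplicit false

open Complex Filter Topology Set MeasureTheory

namespace Pool.Agent.W338.PP

open Pool.Agent.W192.PP
open SG (phi hh dl)
open H370 (mult)
open SG.AlgAux SG.SignAux

/-- extraction of the zeros at a finite set of points -/
lemma extr {f : ℂ → ℂ} {K : Set ℂ} (hK : IsPreconnected K) (hf : AnalyticOnNhd ℂ f K)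
    {c : ℂ} (hcK : c ∈ K) (hc : f c ≠ 0) (B : Finset ℂ) (hB : ∀ z ∈ B, z ∈ K) :
    ∃ (s : Multiset ℂ) (g : ℂ → ℂ), (∀ ρ ∈ s, ρ ∈ B) ∧ AnalyticOnNhd ℂ g K ∧
      (∀ z, f z = Pm s z * g z) ∧ ∀ z ∈ B, g z ≠ 0 := by
  classical
  let Q : ℕ → Prop := fun n => ∃ (s : Multiset ℂ) (g : ℂ → ℂ), Multiset.card s = n ∧
    (∀ ρ ∈ s, ρ ∈ B) ∧ AnalyticOnNhd ℂ g K ∧ (∀ z, f z = Pm s z * g z)
  have hcard : ∀ (s : Multiset ℂ) (g : ℂ → ℂ), (∀ ρ ∈ s, ρ ∈ B) →
      AnalyticOnNhd ℂ g K → (∀ z, f z = Pm s z * g z) →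
      Multiset.card s ≤ ∑ z ∈ B, mult f z := by
    intro s g hs hg hfg
    have h1 : Multiset.card s = ∑ z ∈ s.toFinset, s.count z :=
      (Multiset.toFinset_sum_count_eq s).symm
    rw [h1]
    have hsub : s.toFinset ⊆ B := fun z hz => hs z (Multiset.mem_toFinset.1 hz)
    refine (Finset.sum_le_sum fun z hz => ?_).trans (Finset.sum_le_sum_of_subset hsub)
    have hz' := hB z (hsub hz)
    exact H370.Loc.count_le_mult (hf z hz') (H370.Loc.order_ne_top hK hf hcK hc hz') (hg z hz') hfg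
  have hQ0 : Q 0 := ⟨0, f, by simp, by simp, hf, fun z => by simp [Pm]⟩
  by_contra hcon
  have hstep : ∀ n, Q n → Q (n + 1) := by
    rintro n ⟨s, g, hn, hs, hg, hfg⟩
    by_cases hz : ∀ z ∈ B, g z ≠ 0
    · exact absurd ⟨s, g, hs, hg, hfg, hz⟩ hcon
    · push Not at hz
      obtain ⟨ρ, hρ, hgρ⟩ := hz
      refine ⟨ρ ::ₘ s, dslope g ρ, by rw [Multiset.card_cons, hn], ?_,
        H370.Loc.analytic_dslope hg (hg ρ (hB ρ hρ)), ?_⟩
      · intro x hx
        rw [Multiset.mem_cons] at hx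
        rcases hx with rfl | hx
        · exact hρ
        · exact hs x hx
      · intro z
        have h1 := sub_smul_dslope g ρ z
        rw [hgρ, sub_zero, smul_eq_mul] at h1
        have h2 : Pm (ρ ::ₘ s) z = (z - ρ) * Pm s z := H370.Loc.Pf_cons ρ s z
        rw [hfg z, h2, ← h1]
        ring
  have hall : ∀ n, Q n := fun n => Nat.rec hQ0 hstep n
  obtain ⟨s, g, h1, h2, h3, h4⟩ := hall (∑ z ∈ B, mult f z + 1)
  have := hcard s g h2 h3 h4
  omega

/-- the sign at a good zero -/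
lemma sgn {δ γ : ℝ} (hδ : 0 < δ) (hz : riemannZeta (1 / 2 + I * γ) = 0)
    (hs : deriv riemannZeta (1 / 2 + I * γ) ≠ 0)
    (hsep : ∀ x : ℝ, γ - δ ≤ x → x < γ → riemannZeta (1 / 2 + I * x) ≠ 0) :
    deriv completedRiemannZeta (1 / 2 + I * γ) ≠ 0 ∧ ∃ v : ℝ, 0 < v ∧
      completedRiemannZeta (1 / 2 + I * (γ - δ : ℝ)) / deriv completedRiemannZeta (1 / 2 + I * γ) =
        -(I * v) := by
  set Λ := completedRiemannZeta with hΛ
  set X : ℝ → ℝ := fun t => (Λ (1 / 2 + I * t)).re with hX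
  have hXeq : ∀ t : ℝ, Λ (1 / 2 + I * t) = (X t : ℂ) := by
    intro t
    apply Complex.ext
    · simp [hX]
    · rw [ofReal_im]
      exact SG.Lam_real t
  have hre : ∀ t : ℝ, (1 / 2 + I * (t : ℂ)).re = 1 / 2 := by
    intro t
    simp
  have hne0 : ∀ t : ℝ, (1 / 2 + I * (t : ℂ)) ≠ 0 := by
    intro t h
    have := congrArg re h
    rw [hre] at this
    norm_num at this
  have hne1 : ∀ t : ℝ, (1 / 2 + I * (t : ℂ)) ≠ 1 := by
    intro t h
    have := congrArg re h
    rw [hre] at this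
    norm_num at this
  have hdiff : ∀ t : ℝ, DifferentiableAt ℂ Λ (1 / 2 + I * t) := fun t =>
    differentiableAt_completedZeta (hne0 t) (hne1 t)
  have hGne : ∀ t : ℝ, Gammaℝ (1 / 2 + I * t) ≠ 0 := fun t =>
    Gammaℝ_ne_zero_of_re_pos (by rw [hre]; norm_num)
  have hzX : ∀ t : ℝ, X t = 0 ↔ riemannZeta (1 / 2 + I * t) = 0 := by
    intro t
    rw [riemannZeta_def_of_ne_zero (hne0 t), div_eq_zero_iff]
    constructor
    · intro h
      left
      have := hXeq t
      rw [h, ofReal_zero] at this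
      exact this
    · rintro (h | h)
      · have := hXeq t
        rw [show Λ (1 / 2 + I * t) = 0 from h] at this
        exact_mod_cast this.symm
      · exact absurd h (hGne t)
  have hXc : Continuous X := by
    rw [continuous_iff_continuousAt]
    intro t
    have h1 : ContinuousAt (fun t : ℝ => Λ (1 / 2 + I * t)) t := by
      apply ContinuousAt.comp (g := Λ) (f := fun t : ℝ => (1 / 2 + I * (t : ℂ))) (hdiff t).continuousAt
      fun_prop
    exact Complex.continuous_re.continuousAt.comp h1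
  set L' := deriv Λ (1 / 2 + I * γ) with hL'
  have hder : HasDerivAt (fun t : ℝ => Λ (1 / 2 + I * t)) (L' * I) γ := by
    have h1 : HasDerivAt Λ L' (1 / 2 + I * γ) := (hdiff γ).hasDerivAt
    have h2 : HasDerivAt (fun t : ℝ => (1 / 2 + I * (t : ℂ))) I γ := by
      have := ((Complex.ofRealCLM.hasDerivAt (x := γ)).const_mul I).const_add (1 / 2 : ℂ)
      simpa using this
    exact HasDerivAt.comp γ h1 h2
  set a : ℝ := (L' * I).re with ha
  have hderX : HasDerivAt X a γ := by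
    have h3 := (Complex.reCLM.hasFDerivAt (x := Λ (1 / 2 + I * γ))).comp_hasDerivAt γ hder
    exact h3
  have hLI : L' * I = (a : ℂ) := by
    have h4 : HasDerivAt (fun t : ℝ => (X t : ℂ)) (a : ℂ) γ := hderX.ofReal_comp
    have h5 : (fun t : ℝ => Λ (1 / 2 + I * t)) = fun t : ℝ => (X t : ℂ) := by
      funext t
      exact hXeq t
    rw [h5] at hder
    exact hder.unique h4
  have hL'eq : L' = -(I * a) := by
    rw [← hLI]
    linear_combination L' * I_mul_I
  have hX0 : X γ = 0 := (hzX γ).mpr hz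
  have hL'ne : L' ≠ 0 := by
    intro h
    apply hs
    have e : riemannZeta =ᶠ[𝓝 (1 / 2 + I * (γ : ℂ))] fun s => Λ s / Gammaℝ s := by
      filter_upwards [isOpen_ne.mem_nhds (hne0 γ)] with s hs'
      exact riemannZeta_def_of_ne_zero hs'
    have hG : DifferentiableAt ℂ (fun s => (Gammaℝ s)⁻¹) (1 / 2 + I * (γ : ℂ)) :=
      differentiable_Gammaℝ_inv.differentiableAt
    have h6 : HasDerivAt (fun s => Λ s * (Gammaℝ s)⁻¹)
        (L' * (Gammaℝ (1 / 2 + I * γ))⁻¹ +
          Λ (1 / 2 + I * γ) * deriv (fun s => (Gammaℝ s)⁻¹) (1 / 2 + I * γ))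
        (1 / 2 + I * γ) := (hdiff γ).hasDerivAt.mul hG.hasDerivAt
    rw [e.deriv_eq]
    have h7 : (fun s => Λ s / Gammaℝ s) = fun s => Λ s * (Gammaℝ s)⁻¹ := by
      funext s
      rw [div_eq_mul_inv]
    rw [h7, h6.deriv, h, hXeq γ, hX0]
    simp
  have ha0 : a ≠ 0 := by
    intro h
    apply hL'ne
    rw [hL'eq, h]
    simp
  have hXl : ∀ x, γ - δ ≤ x → x < γ → X x ≠ 0 := fun x h1 h2 h3 => hsep x h1 h2 ((hzX x).mp h3)
  have sl := sign_left' X hXc a γ δ hδ hderX hX0 ha0 hXl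
  have haC : (a : ℂ) ≠ 0 := by exact_mod_cast ha0
  refine ⟨hL'ne, -(X (γ - δ) / a), ?_, ?_⟩
  · rw [neg_pos]
    rw [div_neg_iff]
    rcases lt_or_gt_of_ne ha0 with h | h
    · left
      exact ⟨by nlinarith, h⟩
    · right
      exact ⟨by nlinarith, h⟩
  · rw [hXeq, hL'eq]
    push_cast
    field_simp
    linear_combination (-(X (γ - δ) : ℂ)) * I_sq

/-- orders of vanishing -/
lemma order_shift {δ : ℝ} (hδ : |δ| ≤ 1) {z : ℂ} (hz : 1 ≤ z.im) :
    mult (fun s => completedRiemannZeta (s + hh δ)) z = mult riemannZeta (z + hh δ) := by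
  have him := im_add hδ hz
  have h1 : analyticOrderAt (fun s => completedRiemannZeta (s + hh δ)) z =
      analyticOrderAt completedRiemannZeta (z + hh δ) := by
    have h2 : AnalyticAt ℂ (fun s : ℂ => s + hh δ) z := by fun_prop
    have h3 : deriv (fun s : ℂ => s + hh δ) z ≠ 0 := by
      rw [deriv_add_const]
      simp
    exact analyticOrderAt_comp_of_deriv_ne_zero (f := completedRiemannZeta) h2 h3
  have h2 : completedRiemannZeta =ᶠ[𝓝 (z + hh δ)] fun s => Gammaℝ s * riemannZeta s := by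
    have : IsOpen {s : ℂ | s.im ≠ 0} := isOpen_ne.preimage continuous_im
    filter_upwards [this.mem_nhds him] with s hs
    exact Lam_eq hs
  have h3 : AnalyticAt ℂ Gammaℝ (z + hh δ) := SG.GamAux.GR_analytic him
  have h4 : AnalyticAt ℂ riemannZeta (z + hh δ) := by
    have hopen : IsOpen {s : ℂ | s.im ≠ 0} := isOpen_ne.preimage continuous_im
    have h : DifferentiableOn ℂ riemannZeta {s : ℂ | s.im ≠ 0} := fun z hz =>
      (differentiableAt_riemannZeta (ne_one_of_im hz)).differentiableWithinAt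
    exact h.analyticAt (hopen.mem_nhds him)
  unfold mult analyticOrderNatAt
  rw [h1, analyticOrderAt_congr h2]
  have h5 : analyticOrderAt (fun s => Gammaℝ s * riemannZeta s) (z + hh δ) =
      analyticOrderAt Gammaℝ (z + hh δ) + analyticOrderAt riemannZeta (z + hh δ) :=
    analyticOrderAt_mul h3 h4
  rw [h5, h3.analyticOrderAt_eq_zero.2 (SG.GamAux.GR_ne him), zero_add]

lemma sta_diff {F : ℂ → ℂ} (hF : Differentiable ℂ F) : Differentiable ℂ (sta F) := by
  intro s
  have h1 : Differentiable ℂ fun w => F (1 - w) := hF.comp (differentiable_id.const_sub 1)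
  have h2 := (h1 ((starRingEnd ℂ) s)).conj_conj
  rw [Complex.conj_conj] at h2
  exact h2

lemma ff_symm (c T : ℝ) (s : ℂ) :
    SP.ff c T (1 - (starRingEnd ℂ) s) = (starRingEnd ℂ) (SP.ff c T s) := by
  unfold SP.ff
  rw [map_div₀, ← Lam_conj, ← Lam_conj]
  have e3 : completedRiemannZeta (1 - (starRingEnd ℂ) s + hh (dl c T)) =
      completedRiemannZeta ((starRingEnd ℂ) (s + hh (dl c T))) := by
    rw [map_add, conj_hh3, ← completedRiemannZeta_one_sub]
    congr 1
    ring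
  have e4 : completedRiemannZeta (1 - (starRingEnd ℂ) s - hh (dl c T)) =
      completedRiemannZeta ((starRingEnd ℂ) (s - hh (dl c T))) := by
    rw [map_sub, conj_hh3, ← completedRiemannZeta_one_sub]
    congr 1
    ring
  rw [e3, e4]

lemma FF_symm (F : ℂ → ℂ) (s : ℂ) :
    F (1 - (starRingEnd ℂ) s) * sta F (1 - (starRingEnd ℂ) s) =
      (starRingEnd ℂ) (F s * sta F s) := by
  unfold sta
  rw [map_mul, Complex.conj_conj, map_sub, map_one, Complex.conj_conj, sub_sub_cancel, mul_comm]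

lemma phi_line (τ D y : ℝ) : ∃ p : ℝ, 0 < p ∧ phi τ D (⟨1 / 2, y⟩ : ℂ) = (p : ℂ) := by
  refine ⟨Real.exp (-(y - τ) ^ 2 / (2 * D ^ 2)), Real.exp_pos _, ?_⟩
  unfold phi
  have e2 : ((⟨1 / 2, y⟩ : ℂ) - 1 / 2 - I * τ) ^ 2 / (2 * (D : ℂ) ^ 2) =
      ((-(y - τ) ^ 2 / (2 * D ^ 2) : ℝ) : ℂ) := by
    have e1 : (⟨1 / 2, y⟩ : ℂ) - 1 / 2 - I * τ = I * ((y : ℂ) - τ) := by
      apply Complex.ext
      · simp
      · simp
    rw [e1, mul_pow, I_sq]
    push_cast
    ring
  rw [e2]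
  push_cast
  rfl

/-- the shape of a good zero -/
lemma good_pt {δ : ℝ} {z : ℂ} (h : (z + hh δ).re = 1 / 2) :
    z + hh δ = 1 / 2 + I * ((z + hh δ).im : ℂ) ∧
    z - hh δ = 1 / 2 + I * (((z + hh δ).im - δ : ℝ) : ℂ) ∧ z = ⟨1 / 2, z.im⟩ := by
  have h1 := hh_re' δ
  have h2 := hh_im' δ
  have h3 : z.re = 1 / 2 := by
    rw [add_re, h1, add_zero] at h
    exact h
  refine ⟨?_, ?_, ?_⟩
  · apply Complex.ext
    · rw [h]; simp
    · simp
  · apply Complex.ext
    · rw [sub_re, h1, h3]; simp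
    · rw [sub_im, h2]
      simp [h2]
      ring
  · apply Complex.ext
    · exact h3
    · rfl

theorem t_res : S_res := by
  classical
  intro c T U1 U2 hδ0 hδ1 hU1 hU12 hbd
  set δ := dl c T with hδdef
  have hδa : |δ| ≤ 1 := by rw [abs_of_pos hδ0]; exact hδ1
  set K : Set ℂ := Set.Icc (-5 : ℝ) 6 ×ℂ Set.Icc U1 U2 with hK
  set q : ℂ → ℂ := fun s => completedRiemannZeta (s + hh δ) with hq
  have hKim : ∀ z ∈ K, 1 ≤ z.im := fun z hz => by
    have : U1 ≤ z.im := hz.2.1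
    linarith
  have hqan : AnalyticOnNhd ℂ q K := by
    intro z hz
    have h1 : AnalyticAt ℂ (fun s : ℂ => s + hh δ) z := by fun_prop
    exact AnalyticAt.comp (g := completedRiemannZeta) (f := fun s : ℂ => s + hh δ)
      (Lam_analytic (im_add hδa (hKim z hz))) h1
  have hKc : IsPreconnected K :=
    (Convex.inter ((convex_Icc (-5 : ℝ) 6).linear_preimage Complex.reLm)
      ((convex_Icc U1 U2).linear_preimage Complex.imLm)).isPreconnected
  have hcK : (⟨-5, U1⟩ : ℂ) ∈ K := by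
    refine ⟨?_, ?_⟩
    · show (-5 : ℝ) ∈ Set.Icc (-5 : ℝ) 6
      constructor <;> norm_num
    · show U1 ∈ Set.Icc U1 U2
      exact ⟨le_rfl, hU12.le⟩
  have hc0 : q (⟨-5, U1⟩ : ℂ) ≠ 0 := (hbd (-5) le_rfl (by norm_num)).1
  have hfin : {z : ℂ | z ∈ K ∧ q z = 0}.Finite := by
    have h1 := H370.zset_finite H370.good_zeta U1 (U2 + 1) (by linarith)
    refine (h1.image (fun w => w - hh δ)).subset ?_
    rintro z ⟨hz, h0⟩
    obtain ⟨a1, a2, a3⟩ := (Lam_zero (im_add hδa (hKim z hz))).1 h0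
    have h2 : U1 ≤ z.im := hz.2.1
    have h3 : z.im ≤ U2 := hz.2.2
    have h4 : (z + hh δ).im = z.im + δ / 2 := by rw [add_im, hh_im']
    refine ⟨z + hh δ, ⟨a2, a3, ?_, ?_, a1⟩, by simp⟩
    · rw [h4]; linarith
    · rw [h4]; linarith
  set B : Finset ℂ := hfin.toFinset.filter (fun z => BadZ δ (z + hh δ)) with hBdef
  set Z : Finset ℂ := hfin.toFinset.filter (fun z => ¬ BadZ δ (z + hh δ)) with hZdef
  have hBmem : ∀ z, z ∈ B ↔ (z ∈ K ∧ q z = 0) ∧ BadZ δ (z + hh δ) := by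
    intro z
    rw [hBdef, Finset.mem_filter, Set.Finite.mem_toFinset]
    rfl
  have hZmem : ∀ z, z ∈ Z ↔ (z ∈ K ∧ q z = 0) ∧ ¬ BadZ δ (z + hh δ) := by
    intro z
    rw [hZdef, Finset.mem_filter, Set.Finite.mem_toFinset]
    rfl
  have him : ∀ z ∈ K, q z = 0 → U1 < z.im ∧ z.im < U2 := by
    intro z hz h0
    have h1 : -5 ≤ z.re := hz.1.1
    have h2 : z.re ≤ 6 := hz.1.2
    constructor
    · refine lt_of_le_of_ne hz.2.1 fun h => (hbd z.re h1 h2).1 ?_
      have : (⟨z.re, U1⟩ : ℂ) = z := by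
        apply Complex.ext
        · rfl
        · exact h
      rw [this]
      exact h0
    · refine lt_of_le_of_ne hz.2.2 fun h => (hbd z.re h1 h2).2 ?_
      have : (⟨z.re, U2⟩ : ℂ) = z := by
        apply Complex.ext
        · rfl
        · exact h.symm
      rw [this]
      exact h0
  obtain ⟨S, g, hS, hg, hqg, hgB⟩ := extr hKc hqan hcK hc0 B (fun z hz => ((hBmem z).1 hz).1.1)
  refine ⟨S, ?_, ?_, ?_⟩
  · intro z hz
    obtain ⟨⟨h1, h2⟩, h3⟩ := (hBmem z).1 (hS z hz)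
    obtain ⟨a1, a2, a3⟩ := (Lam_zero (im_add hδa (hKim z h1))).1 h2
    exact ⟨(him z h1 h2).1, (him z h1 h2).2, a2, a3, a1, h3⟩
  · intro z
    by_cases hz : z ∈ S
    · obtain ⟨⟨h1, h2⟩, h3⟩ := (hBmem z).1 (hS z hz)
      rw [← order_shift hδa (hKim z h1)]
      exact H370.Loc.count_le_mult (hqan z h1) (H370.Loc.order_ne_top hKc hqan hcK hc0 h1)
        (hg z h1) hqg
    · rw [Multiset.count_eq_zero_of_notMem hz]
      exact Nat.zero_le _
  intro τ D M F F1 hD hF hF1 hFF hb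
  set W : ℂ → ℂ := fun s => SP.ff c T s * F s * sta F s * phi τ D s with hW
  set H : ℂ → ℂ := fun s => completedRiemannZeta (s - hh δ) * F1 s * sta F s * phi τ D s with hH
  have hHan : AnalyticOnNhd ℂ H K := by
    intro z hz
    have h1 : AnalyticAt ℂ (fun s : ℂ => s - hh δ) z := by fun_prop
    have h2 : AnalyticAt ℂ (fun s : ℂ => completedRiemannZeta (s - hh δ)) z :=
      AnalyticAt.comp (g := completedRiemannZeta) (f := fun s : ℂ => s - hh δ)
        (Lam_analytic (im_sub hδa (hKim z hz))) h1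
    exact ((h2.mul (hF1.analyticAt z)).mul ((sta_diff hF).analyticAt z)).mul (phi_an τ D z)
  have hPm0 : ∀ z, z ∉ B → Pm S z ≠ 0 := fun z hz =>
    H370.Loc.Pf_ne_zero (s := S) fun ρ hρ he => hz (he ▸ hS ρ hρ)
  have hZB : ∀ z ∈ Z, z ∉ B := by
    intro z hz hz'
    exact ((hZmem z).1 hz).2 ((hBmem z).1 hz').2
  have hgZ : ∀ s ∈ K, g s = 0 ↔ s ∈ Z := by
    intro s hs
    constructor
    · intro h
      have h1 : q s = 0 := by rw [hqg s, h, mul_zero]
      have h2 : s ∉ B := fun h3 => hgB s h3 h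
      rw [hZmem]
      refine ⟨⟨hs, h1⟩, fun h3 => h2 ((hBmem s).2 ⟨⟨hs, h1⟩, h3⟩)⟩
    · intro h
      have h1 : q s = 0 := ((hZmem s).1 h).1.2
      rw [hqg s] at h1
      exact (mul_eq_zero.1 h1).resolve_left (hPm0 s (hZB s h))
  have hZint : ∀ z ∈ Z, z ∈ Set.Ioo (-5 : ℝ) 6 ×ℂ Set.Ioo U1 U2 := by
    intro z hz
    obtain ⟨⟨h1, h2⟩, h3⟩ := (hZmem z).1 hz
    obtain ⟨a1, a2, a3⟩ := (Lam_zero (im_add hδa (hKim z h1))).1 h2
    rw [add_re, hh_re', add_zero] at a2 a3
    have h4 := him z h1 h2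
    exact ⟨⟨by linarith, by linarith⟩, h4⟩
  have hderq : ∀ z ∈ K, deriv q z = deriv completedRiemannZeta (z + hh δ) := fun z _ =>
    deriv_comp_add_const (f := completedRiemannZeta) (a := hh δ) (x := z)
  have hderg : ∀ z ∈ Z, deriv q z = Pm S z * deriv g z := by
    intro z hz
    have hzK := ((hZmem z).1 hz).1.1
    have h1 : q = fun s => Pm S s * g s := funext hqg
    have h2 : DifferentiableAt ℂ (Pm S) z := H370.Loc.Pf_diff S z
    have h3 : DifferentiableAt ℂ g z := (hg z hzK).differentiableAt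
    have h4 := (h2.hasDerivAt.mul h3.hasDerivAt).deriv
    rw [h1]
    have h5 : deriv (fun s => Pm S s * g s) z = deriv (Pm S) z * g z + Pm S z * deriv g z := h4
    rw [h5, (hgZ z hzK).2 hz, mul_zero, zero_add]
  -- the residues
  have hkey : ∀ z ∈ Z, deriv g z ≠ 0 ∧ ∃ v : ℝ, 0 ≤ v ∧ H z / deriv g z = -(I * v) := by
    intro z hz
    obtain ⟨⟨h1, h2⟩, h3⟩ := (hZmem z).1 hz
    obtain ⟨a1, a2, a3⟩ := (Lam_zero (im_add hδa (hKim z h1))).1 h2
    unfold BadZ at h3
    push Not at h3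
    obtain ⟨b1, b2, b3⟩ := h3
    obtain ⟨e1, e2, e3⟩ := good_pt b1
    set γ : ℝ := (z + hh δ).im with hγ
    rw [e1] at a1 b2
    obtain ⟨c1, v, hv, c2⟩ := sgn hδ0 a1 b2 b3
    rw [← e1] at c1 c2
    rw [← e2] at c2
    have d1 := hderg z hz
    rw [hderq z h1] at d1
    have hP := hPm0 z (hZB z hz)
    have hg' : deriv g z ≠ 0 := by
      intro h
      rw [h, mul_zero] at d1
      exact c1 d1
    refine ⟨hg', ?_⟩
    obtain ⟨p, hp, hpe⟩ := phi_line τ D z.im
    rw [← e3] at hpe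
    have hst : sta F z = (starRingEnd ℂ) (F z) := by
      unfold sta
      congr 2
      rw [e3]
      apply Complex.ext
      · simp; norm_num
      · simp
    refine ⟨v * (‖F z‖ ^ 2 * p), by positivity, ?_⟩
    have h5 : H z / deriv g z =
        completedRiemannZeta (z - hh δ) / deriv completedRiemannZeta (z + hh δ) *
          (F z * (starRingEnd ℂ) (F z) * phi τ D z) := by
      rw [hH]
      simp only
      rw [hst, hFF z, d1]
      field_simp
    rw [h5, c2, Complex.mul_conj, Complex.normSq_eq_norm_sq, hpe]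
    push_cast
    ring
  have hres := SG.rect_res g H (-5) 6 U1 U2 (by norm_num) hU12 Z hZint hg hHan hgZ
    (fun z hz => (hkey z hz).1)
  have hWH : SG.rectI W (-5) 6 U1 U2 = SG.rectI (fun s => H s / g s) (-5) 6 U1 U2 := by
    refine H370.RI_congr (by norm_num) hU12.le (f := W) (g := fun s => H s / g s) ?_
    intro s hs
    have hsK : s ∈ K := H370.Bd_sub (by norm_num) hU12.le hs
    have hq0 : q s ≠ 0 := by
      intro h0
      have h1 := him s hsK h0
      obtain ⟨a1, a2, a3⟩ := (Lam_zero (im_add hδa (hKim s hsK))).1 h0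
      rw [add_re, hh_re', add_zero] at a2 a3
      exact H370.Bd_not_Ioo hs ⟨⟨by linarith, by linarith⟩, h1⟩
    have h1 := hqg s
    have hP : Pm S s ≠ 0 := by
      intro h
      rw [h, zero_mul] at h1
      exact hq0 h1
    have hg0 : g s ≠ 0 := by
      intro h
      rw [h, mul_zero] at h1
      exact hq0 h1
    have h2 : SP.ff c T s = completedRiemannZeta (s - hh δ) / (Pm S s * g s) := by
      rw [← h1]
      rfl
    rw [hW, hH]
    simp only
    rw [h2, hFF s]
    field_simp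
  have hsum : 0 ≤ (SG.rectI W (-5) 6 U1 U2).re := by
    rw [hWH, hres]
    choose! v hv0 hv using fun z hz => (hkey z hz).2
    rw [Finset.sum_congr rfl hv]
    have h1 : 2 * Real.pi * I * ∑ z ∈ Z, -(I * (v z : ℂ)) =
        ((2 * Real.pi * ∑ z ∈ Z, v z : ℝ) : ℂ) := by
      rw [Finset.sum_neg_distrib, ← Finset.mul_sum]
      push_cast
      linear_combination (-(2 * (Real.pi : ℂ) * ∑ z ∈ Z, (v z : ℂ))) * I_sq
    rw [h1, ofReal_re]
    have := Finset.sum_nonneg hv0
    have := Real.pi_pos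
    positivity
  -- the left side is the conjugate of the right side
  have hWs : ∀ s, W (1 - (starRingEnd ℂ) s) = (starRingEnd ℂ) (W s) := by
    intro s
    have h1 := ff_symm c T s
    have h2 := FF_symm F s
    have h3 := phi_symm τ D s
    rw [hW]
    simp only
    rw [h1, h3, mul_assoc ((starRingEnd ℂ) (SP.ff c T s)), h2]
    simp only [map_mul]
    ring
  have hleft : (∫ y in U1..U2, W (⟨-5, y⟩ : ℂ)) =
      (starRingEnd ℂ) (∫ y in U1..U2, W (⟨6, y⟩ : ℂ)) := by
    rw [intervalIntegral.integral_of_le hU12.le, intervalIntegral.integral_of_le hU12.le,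
      ← integral_conj]
    congr 1
    funext y
    rw [← hWs]
    congr 1
    apply Complex.ext
    · simp; norm_num
    · simp
  set R : ℂ := ∫ y in U1..U2, W (⟨6, y⟩ : ℂ) with hR
  have hbot : ‖∫ x in (-5 : ℝ)..6, W (⟨x, U1⟩ : ℂ)‖ ≤ M * |(6 : ℝ) - (-5)| := by
    refine intervalIntegral.norm_integral_le_of_norm_le_const fun x hx => ?_
    rw [Set.uIoc_of_le (by norm_num)] at hx
    exact (hb x hx.1.le hx.2).1
  have htop : ‖∫ x in (-5 : ℝ)..6, W (⟨x, U2⟩ : ℂ)‖ ≤ M * |(6 : ℝ) - (-5)| := by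
    refine intervalIntegral.norm_integral_le_of_norm_le_const fun x hx => ?_
    rw [Set.uIoc_of_le (by norm_num)] at hx
    exact (hb x hx.1.le hx.2).2
  have h11 : |(6 : ℝ) - (-5)| = 11 := by norm_num
  rw [h11] at hbot htop
  have hb1 := (Complex.abs_re_le_norm _).trans hbot
  have hb2 := (Complex.abs_re_le_norm _).trans htop
  unfold SG.rectI at hsum
  rw [hleft, ← hR] at hsum
  have h12 : (I * R - I * (starRingEnd ℂ) R).re = -2 * R.im := by
    simp
    ring
  have h13 : ((∫ x in (-5 : ℝ)..6, W (⟨x, U1⟩ : ℂ)) - (∫ x in (-5 : ℝ)..6, W (⟨x, U2⟩ : ℂ)) +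
      I * R - I * (starRingEnd ℂ) R).re = (∫ x in (-5 : ℝ)..6, W (⟨x, U1⟩ : ℂ)).re -
        (∫ x in (-5 : ℝ)..6, W (⟨x, U2⟩ : ℂ)).re + (-2 * R.im) := by
    rw [← h12, add_sub_assoc, add_re, sub_re]
  rw [h13] at hsum
  rw [abs_le] at hb1 hb2
  show R.im ≤ 11 * M
  linarith [hb1.1, hb1.2, hb2.1, hb2.2]

end Pool.Agent.W338.PP
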